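import Pool.Agent.H18.GW.Targets

/-!
# MP_0b603e_al: module CB (simple commutators of bounded elements)
-/

set_option autoImplicit false

open scoped commutatorElement

namespace Pool.Agent.H11.GWD

open Pool.Agent.H11.EL Pool.Agent.H11.KT Pool.Agent.H18.GW

/-- products of values of `x ^ e w(y)` in groups with the law `w` -/
theorem CB_pow {r : ℕ} {w : FreeGroup (Fin r)} {Q : Type} [Group Q] (hlaw : Law w Q) (e : ℕ) :
    ∀ l : List Q, (∀ y ∈ l,
      y ∈ Set.range (fun f : Fin (r + 1) → Q => FreeGroup.lift f (w2 e w)) ∨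
      y⁻¹ ∈ Set.range (fun f : Fin (r + 1) → Q => FreeGroup.lift f (w2 e w))) →
    ∃ X : Set Q, X.Finite ∧ l.prod ∈ Subgroup.closure ((fun x => x ^ e) '' X) := by
  intro l
  induction l with
  | nil => exact fun _ => ⟨∅, Set.finite_empty, by simp⟩
  | cons y l ih =>
    intro h
    obtain ⟨X, hX, hl⟩ := ih fun z hz => h z (List.mem_cons_of_mem y hz)
    have hy : ∃ x : Q, y ∈ Subgroup.closure {x ^ e} := by
      rcases h y List.mem_cons_self with ⟨f, hf⟩ | ⟨f, hf⟩
      · dsimp only at hf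
        rw [lift_w2, hlaw, mul_one] at hf
        refine ⟨f 0, ?_⟩
        rw [← hf]
        exact Subgroup.subset_closure rfl
      · dsimp only at hf
        rw [lift_w2, hlaw, mul_one] at hf
        refine ⟨f 0, ?_⟩
        rw [← inv_inv y, ← hf]
        exact Subgroup.inv_mem _ (Subgroup.subset_closure rfl)
    obtain ⟨x, hx⟩ := hy
    refine ⟨insert x X, hX.insert x, ?_⟩
    rw [List.prod_cons]
    refine Subgroup.mul_mem _ (Subgroup.closure_mono ?_ hx) (Subgroup.closure_mono ?_ hl)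
    · rintro _ rfl
      exact ⟨x, Set.mem_insert x X, rfl⟩
    · exact Set.image_mono (Set.subset_insert x X)

theorem pf_CB (hQQ : T_QQ) (hPT : T_PT) (hNF : T_NF) : T_CB := by
  intro r w c e he hgood m
  by_contra hcon
  push Not at hcon
  choose G grp fin hsol h hh hbad using hcon
  let _ : ∀ K, Group (G K) := grp
  obtain ⟨Q, instQ, π, hπs, hlaw, hπ⟩ := hQQ r w G
  let H : ℕ → ∀ K, G K := fun i K => h K i
  have hX : ∀ i, ∃ X : Set Q, X.Finite ∧
      (i ≤ c → π (H i) ∈ Subgroup.closure ((fun x => x ^ e) '' X)) := by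
    intro i
    by_cases hi : i ≤ c
    · have h1 : PW (w2 e w) (m * 2) (π (H i)) :=
        (PW_pi hNF (w2 e w) m G (H i) (fun K => hh K i hi)).map π
      obtain ⟨l, _, h2, h3⟩ := h1
      obtain ⟨X, hX, hl⟩ := CB_pow hlaw e l h2
      exact ⟨X, hX, fun _ => h3 ▸ hl⟩
    · exact ⟨∅, Set.finite_empty, fun h => absurd h hi⟩
  choose X hXf hX using hX
  let Y : Set Q := ⋃ i ∈ Finset.range (c + 1), X i
  have hYf : Y.Finite := Set.Finite.biUnion (Finset.finite_toSet _) fun i _ => hXf i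
  let Q1 : Subgroup Q := Subgroup.closure Y
  have hQ1 : Group.FG Q1 := (Group.fg_iff_subgroup_fg Q1).2
    ((Subgroup.fg_iff Q1).2 ⟨Y, rfl, hYf⟩)
  obtain ⟨N, _, _, hNe, hNc⟩ := hgood Q1 hQ1 (Law_sub hlaw Q1)
  have hy : ∀ i, ∃ y : Q1, i ≤ c → y ∈ N ∧ (y : Q) = π (H i) := by
    intro i
    by_cases hi : i ≤ c
    · have h1 : Subgroup.closure ((fun x => x ^ e) '' X i) ≤ N.map Q1.subtype := by
        rw [Subgroup.closure_le]
        rintro _ ⟨x, hx, rfl⟩
        have hx1 : x ∈ Q1 := by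
          apply Subgroup.subset_closure
          exact Set.mem_biUnion (Finset.mem_coe.2 (Finset.mem_range.2 (by omega))) hx
        exact ⟨⟨x, hx1⟩ ^ e, hNe _, rfl⟩
      obtain ⟨y, hy1, hy2⟩ := h1 (hX i hi)
      exact ⟨y, fun _ => ⟨hy1, hy2⟩⟩
    · exact ⟨1, fun h => absurd h hi⟩
  choose y hy using hy
  obtain ⟨A, hA1, hA2, hA3⟩ := hNc _ (scm_mem N c y fun i hi => (hy i hi).1)
  have hAfg : (A.map Q1.subtype).FG := by
    obtain ⟨S, hS⟩ := hA1
    refine (Subgroup.fg_iff _).2 ⟨Q1.subtype '' (S : Set Q1), ?_, (Finset.finite_toSet S).image _⟩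
    rw [← MonoidHom.map_closure, hS]
  have hAb := hPT r w G Q π hπs hπ fin hsol (A.map Q1.subtype) hAfg
    (by rw [← Subgroup.map_commutator, hA2])
  have h1 : Q1.subtype (scm c y) = 1 := by
    have : Q1.subtype (scm c y) ∈ A.map Q1.subtype := ⟨_, hA3, rfl⟩
    rwa [hAb, Subgroup.mem_bot] at this
  rw [scm_map, scm_congr c (fun i => Q1.subtype (y i)) (fun i => π (H i)) fun i hi => (hy i hi).2,
    ← scm_map] at h1
  obtain ⟨m', hm'⟩ := (hπ _).1 h1
  apply hbad m'
  have h2 := hm' m'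
  rwa [scm_pi] at h2

end Pool.Agent.H11.GWD
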