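import Pool.Agent.H18.GW.Targets

/-!
# MP_0b603e_al: module GN
-/

set_option autoImplicit false

open scoped commutatorElement

namespace Pool.Agent.H11.GWD

open Pool.Agent.H11.EL Pool.Agent.H11.KT Pool.Agent.H18.GW

theorem pf_GN (hQQ : T_QQ) (hPT : T_PT) : T_GN := by
  intro r w d v hv
  by_contra hcon
  push Not at hcon
  choose G grp fin hsol f hf using hcon
  let _ : ∀ K, Group (G K) := grp
  obtain ⟨Q, instQ, π, hπs, hlaw, hπ⟩ := hQQ r w G
  obtain ⟨A, hA1, hA2, hA3⟩ := hv Q hlaw (fun i => π (fun K => f K i))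
  have hA := hPT r w G Q π hπs hπ fin hsol A hA1 hA2
  rw [hA, Subgroup.mem_bot] at hA3
  rw [← lift_map v π (fun i K => f K i)] at hA3
  obtain ⟨m, hm⟩ := (hπ _).1 hA3
  apply hf m
  have h1 := hm m
  have h2 : (FreeGroup.lift (fun (i : Fin d) (K : ℕ) => f K i) v : ∀ K, G K) m =
      FreeGroup.lift (f m) v := lift_map v (Pi.evalMonoidHom G m) (fun i K => f K i)
  rwa [h2] at h1

end Pool.Agent.H11.GWD
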