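import Pool.Agent.H18.GW.Ext

/-!
# MP_0b603e_al: module WA (the derived group of `w(R) ∩ N`)
-/

set_option autoImplicit false

open scoped commutatorElement

namespace Pool.Agent.H11.GWD

open Pool.Agent.H11.EL Pool.Agent.H11.KT Pool.Agent.H18.GW

theorem pf_WA (hNB : T_NB) : T_WA := by
  classical
  intro R _ hR N hN hnil r w
  obtain ⟨A, hAe⟩ : ∃ A : Subgroup R, A = Vb w R ⊓ N := ⟨_, rfl⟩
  rw [← hAe]
  have hAV : A ≤ Vb w R := by rw [hAe]; exact inf_le_left
  have hAN : A ≤ N := by rw [hAe]; exact inf_le_right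
  have hAnil : Group.IsNilpotent A := by
    rw [Subgroup.isNilpotent_iff_lowerCentralSeries] at hnil ⊢
    obtain ⟨n, hn⟩ := hnil
    exact ⟨n, le_bot_iff.1 ((lcs_mono hAN n).trans hn.le)⟩
  have hAfg : Group.FG A := (Group.fg_iff_subgroup_fg A).2 (hR A)
  obtain ⟨S, hS⟩ := Group.fg_def.1 hAfg
  obtain ⟨d, hd⟩ : ∃ d, d = S.card := ⟨_, rfl⟩
  let y : ℕ → A := fun i => if h : i < S.card then (S.equivFin.symm ⟨i, h⟩ : A) else 1
  have hy : Subgroup.closure {g | ∃ i < S.card, g = y i} = ⊤ := by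
    rw [← hS]
    congr 1
    ext g
    constructor
    · rintro ⟨i, hi, rfl⟩
      simp only [y, hi, dif_pos]
      exact (S.equivFin.symm ⟨i, hi⟩).2
    · intro hg
      refine ⟨S.equivFin ⟨g, hg⟩, (S.equivFin ⟨g, hg⟩).2, ?_⟩
      simp [y]
  choose m hm using fun i => pw_exists (w := w) (hAV (y i).2)
  refine ⟨∑ i ∈ Finset.range S.card, 2 * m i, fun g hg => ?_⟩
  have hg' : g ∈ (commutator A).map A.subtype := by
    rw [Subgroup.map_subtype_commutator]
    exact hg
  obtain ⟨g', hg1, rfl⟩ := hg'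
  obtain ⟨x, rfl⟩ := hNB A hAnil S.card y hy g' hg1
  have key : ∀ n : ℕ, PW w (∑ i ∈ Finset.range n, 2 * m i) (A.subtype (cp n y x)) := by
    intro n
    induction n with
    | zero => simpa using PW.one (w := w) (G := R) 0
    | succ n ih =>
      rw [cp_succ, map_mul, map_commutatorElement, Finset.sum_range_succ]
      exact ih.mul (pw_comm_left (hm n) _)
  exact key _

end Pool.Agent.H11.GWD
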